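import Pool.Agent.H874R3.MQ.Stmts
import Pool.Agent.Helper186.ParamInt

/-! Task IN of the project H874-MQ. -/

set_option autoImplicit false

open Real Set MeasureTheory
open scoped ContDiff

namespace Pool.Agent.H165R3.MQ

open Pool.Agent.H874R3.MQ

lemma chi_contDiff : ContDiff ℝ ∞ chi := by
  unfold chi
  exact Real.smoothTransition.contDiff.comp (by fun_prop)

lemma weight_contDiff : ContDiff ℝ ∞ (fun t : ℝ => cos t * (1 - chi (sin (t / 2) ^ 2))) := by
  have h1 : ContDiff ℝ ∞ (fun t : ℝ => sin (t / 2) ^ 2) :=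
    (Real.contDiff_sin.comp (contDiff_id.div_const 2)).pow 2
  exact Real.contDiff_cos.mul (contDiff_const.sub (chi_contDiff.comp h1))

lemma arg_le {p : ℝ → ℝ} (hp : ∀ s < 1, 0 < p s) {s : ℝ} (hs : s < 1) (t : ℝ) :
    s - p s * (1 - cos t) ≤ s := by
  have h1 := hp s hs
  have h2 := Real.cos_le_one t
  nlinarith [mul_nonneg h1.le (sub_nonneg.2 h2)]

lemma one_sub_cos (t : ℝ) : 1 - cos t = 2 * sin (t / 2) ^ 2 := by
  have h := Real.cos_two_mul' (t / 2)
  have h2 := Real.sin_sq_add_cos_sq (t / 2)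
  have h3 : 2 * (t / 2) = t := by ring
  rw [h3] at h
  nlinarith

lemma zero_of_le {p G : ℝ → ℝ} {c : ℝ} (hp : ∀ s < 1, 0 < p s) (hc : c < 1)
    (hG : ∀ s ≤ c, G s = 0) {s : ℝ} (hs : s ≤ c) : Tin p G s = 0 := by
  unfold Tin
  have h : ∀ t : ℝ, G (s - p s * (1 - cos t)) * (cos t * (1 - chi (sin (t / 2) ^ 2))) = 0 := by
    intro t
    rw [hG _ ((arg_le hp (hs.trans_lt hc) t).trans hs), zero_mul]
  simp [h]

theorem taskIn (hSm : TaskSm) : TaskIn := by
  intro p c hpc hp hc0 hc1
  refine ⟨fun w hw => ⟨?_, fun s hs => zero_of_le hp hc1 (hSm.1 c w hc0 hw).2 hs⟩, ?_⟩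
  · have hG := (hSm.1 c w hc0 hw).1
    have hk : ContDiffOn ℝ ∞ (fun q : ℝ × ℝ => GG w (q.2 - p q.2 * (1 - cos q.1)) *
        (cos q.1 * (1 - chi (sin (q.1 / 2) ^ 2)))) (univ ×ˢ Iio (1:ℝ)) := by
      refine ContDiffOn.mul ?_ ?_
      · have ha : ContDiff ℝ ∞ (fun q : ℝ × ℝ => q.2 - p q.2 * (1 - cos q.1)) :=
          contDiff_snd.sub ((hpc.comp contDiff_snd).mul
            (contDiff_const.sub (Real.contDiff_cos.comp contDiff_fst)))
        exact hG.comp ha.contDiffOn (fun q hq => (arg_le hp hq.2 q.1).trans_lt hq.2)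
      · exact (weight_contDiff.comp contDiff_fst).contDiffOn
    exact Pool.Agent.Helper186.contDiffOn_paramInt isOpen_Iio π hk
  · intro d hd
    have hex : ∃ δ > 0, ∀ s, c < s → s < d → δ ≤ p s / 2 := by
      rcases le_or_gt d c with hdc | hcd
      · exact ⟨1, one_pos, fun s h1 h2 => absurd (h1.trans h2) (not_lt.2 hdc)⟩
      · obtain ⟨x, hx, hmin⟩ := isCompact_Icc.exists_isMinOn (nonempty_Icc.2 hcd.le)
          (hpc.continuous.continuousOn (s := Icc c d))
        refine ⟨p x / 2, half_pos (hp x (hx.2.trans_lt hd)), fun s h1 h2 => ?_⟩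
        have := hmin (show s ∈ Icc c d from ⟨h1.le, h2.le⟩)
        simp only [Set.mem_ofPred_eq] at this
        linarith
    obtain ⟨δ, hδ, hδp⟩ := hex
    refine ⟨δ, hδ, fun w w' e hw hw' hww s hsd hse => ?_⟩
    rcases le_or_gt s c with hsc | hcs
    · rw [zero_of_le hp hc1 (hSm.1 c w hc0 hw).2 hsc, zero_of_le hp hc1 (hSm.1 c w' hc0 hw').2 hsc]
    · unfold Tin
      congr 1
      funext t
      by_cases hq : sin (t / 2) ^ 2 ≤ 1 / 4
      · have h1 : chi (sin (t / 2) ^ 2) = 1 := by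
          unfold chi
          exact Real.smoothTransition.one_of_one_le (by linarith)
        rw [h1]; ring
      · push Not at hq
        have hs1 : s < 1 := hsd.trans hd
        have hps := hp s hs1
        have h2 : s - p s * (1 - cos t) < e := by
          have h3 := hδp s hcs hsd
          rw [one_sub_cos]
          nlinarith [mul_lt_mul_of_pos_left hq hps]
        have h4 : GG w (s - p s * (1 - cos t)) = GG w' (s - p s * (1 - cos t)) := by
          unfold GG
          congr 1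
          funext v
          exact hww _ (lt_of_le_of_lt (by nlinarith [sq_nonneg v]) h2)
        rw [h4]

end Pool.Agent.H165R3.MQ
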